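import Mathlib.Topology.Sheaves.Presheaf
import Mathlib.Tactic.Monotonicity.Lemmas
import Mathlib.MeasureTheory.Integral.IntervalIntegral.Periodic
import Mathlib.MeasureTheory.Measure.Haar.Unique
import Mathlib.Topology.Compactness.CompactlyGeneratedSpace
import Mathlib.Combinatorics.SimpleGraph.Basic
import Mathlib.MeasureTheory.Measure.RegularityCompacts
import Mathlib.Topology.Separation.CompletelyRegular
import Mathlib.Order.CompletePartialOrder
import Mathlib.Probability.ProductMeasure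
import Mathlib.Tactic.Algebra.Basic

-- ======== part 0: formerly Pool.Agent.MP_08a145_lc.Flow
section MrgPart0

/-! A Moebius flow on the interval `[-1,1]`. -/

set_option autoImplicit false

open Set Real

namespace Pool.Agent.MP_08a145_lc

/-- The Moebius flow `tanh (artanh x + t / 2)` on `[-1,1]`. -/
noncomputable def mob (t x : ℝ) : ℝ :=
  ((1 + x) * exp t - (1 - x)) / ((1 + x) * exp t + (1 - x))

/-- The coordinate in which the flow is a translation. -/
noncomputable def psi (x : ℝ) : ℝ := Real.log ((1 + x) / (1 - x))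

lemma mob_den_pos (t : ℝ) {x : ℝ} (hx : |x| ≤ 1) : 0 < (1 + x) * exp t + (1 - x) := by
  have h := abs_le.mp hx
  have he := exp_pos t
  rcases eq_or_lt_of_le h.2 with h1 | h1
  · rw [h1]; nlinarith
  · have : 0 ≤ (1 + x) * exp t := mul_nonneg (by linarith [h.1]) he.le
    linarith

lemma abs_mob_le (t : ℝ) {x : ℝ} (hx : |x| ≤ 1) : |mob t x| ≤ 1 := by
  have hd := mob_den_pos t hx
  have h := abs_le.mp hx
  have he := exp_pos t
  have h1 : 0 ≤ (1 + x) * exp t := mul_nonneg (by linarith [h.1]) he.le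
  unfold mob
  rw [abs_div, abs_of_pos hd, div_le_one hd, abs_le]
  constructor <;> linarith [h.2]

lemma mob_zero (x : ℝ) : mob 0 x = x := by
  unfold mob
  simp only [exp_zero, mul_one]
  have : (1 + x + (1 - x)) = 2 := by ring
  rw [this]; ring

lemma mob_add (s t : ℝ) {x : ℝ} (hx : |x| ≤ 1) : mob s (mob t x) = mob (s + t) x := by
  have hd := mob_den_pos t hx
  have hd2 := mob_den_pos (s + t) hx
  have h1 : 1 + mob t x = 2 * ((1 + x) * exp t) / ((1 + x) * exp t + (1 - x)) := by
    unfold mob; field_simp; ring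
  have h2 : 1 - mob t x = 2 * (1 - x) / ((1 + x) * exp t + (1 - x)) := by
    unfold mob; field_simp; ring
  have hd3 := mob_den_pos s (abs_mob_le t hx)
  rw [show mob s (mob t x) = ((1 + mob t x) * exp s - (1 - mob t x)) /
      ((1 + mob t x) * exp s + (1 - mob t x)) from rfl]
  rw [h1, h2] at hd3 ⊢
  unfold mob
  rw [exp_add] at hd2 ⊢
  rw [div_eq_div_iff hd3.ne' hd2.ne']
  field_simp

lemma mob_neg (t : ℝ) {x : ℝ} (hx : |x| ≤ 1) : mob t (-x) = -mob (-t) x := by
  have hd := mob_den_pos t (x := -x) (by simpa using hx)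
  have hd2 := mob_den_pos (-t) hx
  have he := exp_pos t
  unfold mob
  rw [exp_neg] at hd2 ⊢
  rw [← neg_div, div_eq_div_iff hd.ne' hd2.ne']
  field_simp
  ring

lemma mob_one (t : ℝ) : mob t 1 = 1 := by
  have he := exp_pos t
  unfold mob
  field_simp
  ring

lemma mob_neg_one (t : ℝ) : mob t (-1) = -1 := by
  rw [mob_neg t (by simp), mob_one]

lemma abs_mob_of_abs_eq_one (t : ℝ) {x : ℝ} (hx : |x| = 1) : |mob t x| = 1 := by
  rcases abs_eq (zero_le_one' ℝ) |>.mp hx with h | h
  · rw [h, mob_one]; simp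
  · rw [h, mob_neg_one]; simp

lemma mob_psi {x : ℝ} (hx : |x| < 1) : mob (psi x) 0 = x := by
  have h := abs_lt.mp hx
  have h1 : 0 < 1 + x := by linarith [h.1]
  have h2 : 0 < 1 - x := by linarith [h.2]
  unfold mob psi
  rw [exp_log (div_pos h1 h2)]
  field_simp
  ring

lemma mob_eq_of_lt (t : ℝ) {x : ℝ} (hx : |x| < 1) : mob t x = mob (t + psi x) 0 := by
  rw [← mob_add t (psi x) (x := 0) (by simp), mob_psi hx]

lemma mob_neg_zero (t : ℝ) : mob (-t) 0 = -mob t 0 := by
  have := mob_neg (-t) (x := 0) (by simp)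
  simpa using this

lemma psi_neg (x : ℝ) : psi (-x) = -psi x := by
  unfold psi
  rw [← Real.log_inv, inv_div]
  congr 1
  ring

lemma abs_psi_eq_of_abs_eq {x y : ℝ} (h : |x| = |y|) : |psi x| = |psi y| := by
  rcases abs_eq_abs.mp h with h | h
  · rw [h]
  · rw [h, psi_neg, abs_neg]

lemma continuousAt_psi {x : ℝ} (hx : |x| < 1) : ContinuousAt psi x := by
  have h := abs_lt.mp hx
  have h1 : 0 < 1 + x := by linarith [h.1]
  have h2 : 0 < 1 - x := by linarith [h.2]
  unfold psi
  refine ContinuousAt.log ?_ (div_pos h1 h2).ne'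
  exact ContinuousAt.div (by fun_prop) (by fun_prop) h2.ne'

lemma exists_far {ε : ℝ} (hε : 0 < ε) :
    ∃ R : ℝ, 0 < R ∧ ∀ s : ℝ, R ≤ |s| → 1 - ε ≤ |mob s 0| := by
  have key : ∀ s : ℝ, 2 / ε ≤ s → 1 - ε ≤ mob s 0 := by
    intro s hs
    have he := exp_pos s
    have h1 : s + 1 ≤ exp s := add_one_le_exp s
    have h2 : 2 ≤ ε * s := by rwa [div_le_iff₀ hε, mul_comm] at hs
    unfold mob
    rw [le_div_iff₀ (by positivity)]
    nlinarith
  refine ⟨2 / ε, by positivity, fun s hs => ?_⟩
  rcases le_abs.mp hs with h | h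
  · exact (key s h).trans (le_abs_self _)
  · have := key (-s) h
    rw [mob_neg_zero] at this
    exact this.trans (neg_le_abs _)

lemma continuousOn_mob : ContinuousOn (fun p : ℝ × ℝ => mob p.1 p.2) {p | |p.2| ≤ 1} := by
  unfold mob
  refine ContinuousOn.div (by fun_prop) (by fun_prop) ?_
  intro p hp
  exact (mob_den_pos p.1 hp).ne'

end Pool.Agent.MP_08a145_lc

end MrgPart0

-- ======== part 1: formerly Pool.Agent.MP_08a145_lc.Slide
section MrgPart1

/-! A homeomorphism of the cube `[-1,1]^ℕ` that pushes corner points into the pseudo-interior. -/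

set_option autoImplicit false

open Set Filter Topology

namespace Pool.Agent.MP_08a145_lc

/-- Norm preserving slide of the plane with the sup norm. -/
noncomputable def sl (c : ℝ) (p : ℝ × ℝ) : ℝ × ℝ :=
  (‖p‖ / ‖((c * p.1, p.2) : ℝ × ℝ)‖) • (c * p.1, p.2)

lemma lin_ne_zero {c : ℝ} (hc : 0 < c) {p : ℝ × ℝ} (hp : p ≠ 0) :
    ((c * p.1, p.2) : ℝ × ℝ) ≠ 0 := by
  intro h
  apply hp
  have h1 : c * p.1 = 0 := congrArg Prod.fst h
  have h2 : p.2 = 0 := congrArg Prod.snd h
  rcases mul_eq_zero.mp h1 with h3 | h3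
  · exact absurd h3 hc.ne'
  · exact Prod.ext h3 h2

lemma sl_zero (c : ℝ) : sl c 0 = 0 := by
  simp [sl]

lemma norm_sl {c : ℝ} (hc : 0 < c) (p : ℝ × ℝ) : ‖sl c p‖ = ‖p‖ := by
  by_cases hp : p = 0
  · rw [hp, sl_zero]
  · have h := norm_pos_iff.mpr (lin_ne_zero hc hp)
    unfold sl
    rw [norm_smul, Real.norm_eq_abs, abs_of_nonneg (by positivity)]
    field_simp

lemma sl_inv {c : ℝ} (hc : 0 < c) (p : ℝ × ℝ) : sl c⁻¹ (sl c p) = p := by
  by_cases hp : p = 0
  · rw [hp, sl_zero, sl_zero]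
  · have h := norm_pos_iff.mpr (lin_ne_zero hc hp)
    have hp' := norm_pos_iff.mpr hp
    have e1 : ((c⁻¹ * (sl c p).1, (sl c p).2) : ℝ × ℝ) =
        (‖p‖ / ‖((c * p.1, p.2) : ℝ × ℝ)‖) • p := by
      unfold sl
      ext
      · simp only [Prod.smul_fst, smul_eq_mul]
        field_simp
      · simp only [Prod.smul_snd, smul_eq_mul]
    rw [show sl c⁻¹ (sl c p) = (‖sl c p‖ / ‖((c⁻¹ * (sl c p).1, (sl c p).2) : ℝ × ℝ)‖) •
      ((c⁻¹ * (sl c p).1, (sl c p).2) : ℝ × ℝ) from rfl]
    rw [e1, norm_sl hc, norm_smul, Real.norm_eq_abs, abs_of_nonneg (by positivity), smul_smul]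
    have : ‖p‖ / (‖p‖ / ‖((c * p.1, p.2) : ℝ × ℝ)‖ * ‖p‖) *
        (‖p‖ / ‖((c * p.1, p.2) : ℝ × ℝ)‖) = 1 := by
      field_simp
    rw [this, one_smul]

lemma continuous_sl {c : ℝ} (hc : 0 < c) : Continuous (sl c) := by
  rw [continuous_iff_continuousAt]
  intro p
  by_cases hp : p = 0
  · subst hp
    rw [ContinuousAt, sl_zero, tendsto_zero_iff_norm_tendsto_zero]
    simp only [norm_sl hc]
    exact tendsto_norm_zero
  · have h := norm_pos_iff.mpr (lin_ne_zero hc hp)
    have h1 : Continuous fun q : ℝ × ℝ => ((c * q.1, q.2) : ℝ × ℝ) := by fun_prop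
    have h2 : ContinuousAt (fun q : ℝ × ℝ => ‖q‖ / ‖((c * q.1, q.2) : ℝ × ℝ)‖) p :=
      ContinuousAt.div continuous_norm.continuousAt h1.norm.continuousAt h.ne'
    exact h2.smul h1.continuousAt

lemma sl_top {c : ℝ} (hc : 0 < c) (hc1 : c ≤ 1) {p : ℝ × ℝ} (h1 : |p.1| ≤ 1) (h2 : |p.2| = 1) :
    sl c p = (c * p.1, p.2) := by
  have e1 : ‖p‖ = 1 := by
    rw [Prod.norm_def, Real.norm_eq_abs, Real.norm_eq_abs, h2, max_eq_right h1]
  have e2 : ‖((c * p.1, p.2) : ℝ × ℝ)‖ = 1 := by
    rw [Prod.norm_def, Real.norm_eq_abs, Real.norm_eq_abs, h2, max_eq_right]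
    rw [abs_mul, abs_of_pos hc]
    exact mul_le_one₀ hc1 (abs_nonneg _) h1
  unfold sl
  rw [e1, e2]; simp

lemma sl_close {c : ℝ} (hc : 0 < c) (hc1 : c ≤ 1) {p : ℝ × ℝ} (h : ‖p‖ ≤ 1) :
    |(sl c p).1 - p.1| ≤ 1 - c ∧ |(sl c p).2 - p.2| ≤ 1 - c := by
  by_cases hp : p = 0
  · rw [hp, sl_zero]; simp; linarith
  have hL := norm_pos_iff.mpr (lin_ne_zero hc hp)
  set N := ‖((c * p.1, p.2) : ℝ × ℝ)‖ with hN
  have hx : |p.1| ≤ ‖p‖ := by simpa using norm_fst_le p
  have hy : |p.2| ≤ ‖p‖ := by simpa using norm_snd_le p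
  have hy' : |p.2| ≤ N := norm_snd_le ((c * p.1, p.2) : ℝ × ℝ)
  have hx' : c * |p.1| ≤ N := by
    have : |c * p.1| ≤ N := norm_fst_le ((c * p.1, p.2) : ℝ × ℝ)
    rwa [abs_mul, abs_of_pos hc] at this
  have hup : N ≤ ‖p‖ := by
    rw [hN, Prod.norm_def, max_le_iff]
    refine ⟨?_, by simpa using hy⟩
    simp only [Real.norm_eq_abs, abs_mul, abs_of_pos hc]
    nlinarith [abs_nonneg p.1]
  have hlo : c * ‖p‖ ≤ N := by
    rw [Prod.norm_def, Real.norm_eq_abs, Real.norm_eq_abs]
    rcases le_total |p.1| |p.2| with h1 | h1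
    · rw [max_eq_right h1]; nlinarith [abs_nonneg p.2]
    · rw [max_eq_left h1]; exact hx'
  constructor
  · have e : (sl c p).1 - p.1 = -((1 - c * ‖p‖ / N) * p.1) := by
      simp only [sl, Prod.smul_fst, smul_eq_mul, ← hN]; ring
    have f1 : c * ‖p‖ / N ≤ 1 := by rw [div_le_one hL]; exact hlo
    have f2 : c ≤ c * ‖p‖ / N := by rw [le_div_iff₀ hL]; nlinarith
    rw [e, abs_neg, abs_mul, abs_of_nonneg (by linarith)]
    nlinarith [abs_nonneg p.1]
  · have e : (sl c p).2 - p.2 = ((‖p‖ - N) / N) * p.2 := by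
      simp only [sl, Prod.smul_snd, smul_eq_mul, ← hN]; field_simp
    rw [e, abs_mul, abs_of_nonneg (div_nonneg (by linarith) hL.le), div_mul_eq_mul_div,
      div_le_iff₀ hL]
    have : ‖p‖ - N ≤ 1 - c := by nlinarith
    nlinarith [abs_nonneg p.2]

/-- The symmetric interval. -/
abbrev J : Type := Set.Icc (-1 : ℝ) 1

/-- The symmetric Hilbert cube. -/
abbrev X : Type := ℕ → J

lemma abs_le_one (y : J) : |(y : ℝ)| ≤ 1 := abs_le.mpr y.2

lemma norm_pair_le (y z : J) : ‖(((y : ℝ), (z : ℝ)) : ℝ × ℝ)‖ ≤ 1 := by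
  rw [Prod.norm_def, max_le_iff]
  exact ⟨abs_le_one y, abs_le_one z⟩

lemma sl_fst_mem {c : ℝ} (hc : 0 < c) (y z : J) : (sl c (y, z)).1 ∈ Set.Icc (-1 : ℝ) 1 := by
  have := (norm_fst_le (sl c (y, z))).trans ((norm_sl hc _).le.trans (norm_pair_le y z))
  exact abs_le.mp this

lemma sl_snd_mem {c : ℝ} (hc : 0 < c) (y z : J) : (sl c (y, z)).2 ∈ Set.Icc (-1 : ℝ) 1 := by
  have := (norm_snd_le (sl c (y, z))).trans ((norm_sl hc _).le.trans (norm_pair_le y z))
  exact abs_le.mp this

/-- The slide acting on the coordinates `i` and `j`. -/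
noncomputable def slide {c : ℝ} (hc : 0 < c) (i j : ℕ) (x : X) : X := fun k =>
  if k = i then ⟨(sl c (x i, x j)).1, sl_fst_mem hc _ _⟩
  else if k = j then ⟨(sl c (x i, x j)).2, sl_snd_mem hc _ _⟩ else x k

lemma slide_fst {c : ℝ} (hc : 0 < c) (i j : ℕ) (x : X) :
    (slide hc i j x i : ℝ) = (sl c (x i, x j)).1 := by
  simp [slide]

lemma slide_snd {c : ℝ} (hc : 0 < c) {i j : ℕ} (hij : i ≠ j) (x : X) :
    (slide hc i j x j : ℝ) = (sl c (x i, x j)).2 := by
  simp [slide, hij.symm]

lemma slide_other {c : ℝ} (hc : 0 < c) {i j k : ℕ} (hi : k ≠ i) (hj : k ≠ j) (x : X) :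
    slide hc i j x k = x k := by
  simp [slide, hi, hj]

lemma continuous_slide {c : ℝ} (hc : 0 < c) (i j : ℕ) : Continuous (slide hc i j) := by
  have hs : Continuous fun x : X => sl c (x i, x j) :=
    (continuous_sl hc).comp (by fun_prop)
  refine continuous_pi fun k => ?_
  unfold slide
  split_ifs
  · exact Continuous.subtype_mk hs.fst _
  · exact Continuous.subtype_mk hs.snd _
  · exact continuous_apply k

lemma slide_inv {c d : ℝ} (hc : 0 < c) (hd : 0 < d) (hcd : d = c⁻¹) {i j : ℕ} (hij : i ≠ j)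
    (x : X) : slide hd i j (slide hc i j x) = x := by
  subst hcd
  funext k
  apply Subtype.ext
  have e : (((slide hc i j x i : ℝ), (slide hc i j x j : ℝ)) : ℝ × ℝ) = sl c (x i, x j) := by
    rw [slide_fst, slide_snd hc hij]
  by_cases hi : k = i
  · subst hi
    rw [slide_fst, e, sl_inv hc]
  · by_cases hj : k = j
    · subst hj
      rw [slide_snd hd hij, e, sl_inv hc]
    · rw [slide_other hd hi hj, slide_other hc hi hj]

/-- The slide as a homeomorphism. -/
noncomputable def slideH {c : ℝ} (hc : 0 < c) {i j : ℕ} (hij : i ≠ j) : X ≃ₜ X where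
  toFun := slide hc i j
  invFun := slide (inv_pos.mpr hc) i j
  left_inv x := slide_inv hc _ rfl hij x
  right_inv x := slide_inv (inv_pos.mpr hc) hc (inv_inv c).symm hij x
  continuous_toFun := continuous_slide hc i j
  continuous_invFun := continuous_slide _ i j

lemma slide_close {c : ℝ} (hc : 0 < c) (hc1 : c ≤ 1) {i j : ℕ} (hij : i ≠ j) (x : X) (k : ℕ) :
    |(slide hc i j x k : ℝ) - x k| ≤ 1 - c := by
  have h := sl_close hc hc1 (norm_pair_le (x i) (x j))
  by_cases hi : k = i
  · subst hi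
    rw [slide_fst]; exact h.1
  · by_cases hj : k = j
    · subst hj
      rw [slide_snd hc hij]; exact h.2
    · rw [slide_other hc hi hj]; simp; linarith

lemma slide_top {c : ℝ} (hc : 0 < c) (hc1 : c ≤ 1) {i j : ℕ} (hij : i ≠ j) (x : X)
    (hx : |(x j : ℝ)| = 1) (k : ℕ) :
    (slide hc i j x k : ℝ) = (if k = i then c else 1) * x k := by
  have h := sl_top hc hc1 (p := ((x i : ℝ), (x j : ℝ))) (abs_le_one (x i)) hx
  by_cases hi : k = i
  · subst hi
    rw [slide_fst, h]; simp
  · by_cases hj : k = j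
    · subst hj
      rw [slide_snd hc hij, h]; simp [hi]
    · rw [slide_other hc hi hj]; simp [hi]

lemma exists_modulus (F : X ≃ₜ X) (m : ℕ) : ∃ δ : ℝ, 0 < δ ∧ ∀ x x' : X,
    (∀ k, |(F x k : ℝ) - F x' k| ≤ δ) → ∀ k ≤ m, |(x k : ℝ) - x' k| < 1 / (m + 1) := by
  let V : ℕ → Set (X × X) := fun n => {p | ∀ k, |(F p.1 k : ℝ) - F p.2 k| ≤ 1 / (n + 1)}
  have hanti : Antitone V := by
    intro a b hab p hp k
    refine (hp k).trans ?_
    apply one_div_le_one_div_of_le (by positivity)
    exact_mod_cast Nat.succ_le_succ hab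
  have hclosed : ∀ n, IsClosed (V n) := by
    intro n
    have : V n = ⋂ k, {p : X × X | |(F p.1 k : ℝ) - F p.2 k| ≤ 1 / (n + 1)} := by
      ext p; simp [V]
    rw [this]
    refine isClosed_iInter fun k => isClosed_le (by fun_prop) continuous_const
  let U : Set (X × X) := ⋂ k ∈ Finset.range (m + 1), {p | |(p.1 k : ℝ) - p.2 k| < 1 / (m + 1)}
  have hU : IsOpen U := by
    refine isOpen_biInter_finset fun k _ => isOpen_lt (by fun_prop) continuous_const
  obtain ⟨n, hn⟩ := exists_subset_nhds_of_compactSpace (V := V) (U := U)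
    (hanti.directed_ge) hclosed (by
      intro p hp
      apply hU.mem_nhds
      have h1 : F p.1 = F p.2 := by
        funext k
        apply Subtype.ext
        have : |(F p.1 k : ℝ) - F p.2 k| ≤ 0 := by
          refine ge_of_tendsto' tendsto_one_div_add_atTop_nhds_zero_nat fun n => ?_
          exact (mem_iInter.mp hp n) k
        exact sub_eq_zero.mp (abs_nonpos_iff.mp this)
      have h2 : p.1 = p.2 := F.injective h1
      simp only [U, mem_iInter, mem_ofPred_eq]
      intro k _
      rw [h2, sub_self, abs_zero]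
      positivity)
  refine ⟨1 / (n + 1), by positivity, fun x x' h k hk => ?_⟩
  have := hn (show (x, x') ∈ V n from h)
  simp only [U, mem_iInter, mem_ofPred_eq] at this
  exact this k (Finset.mem_range.mpr (Nat.lt_succ_of_le hk))

lemma idx_ne (m : ℕ) : (Nat.unpair m).1 ≠ m + 1 :=
  (Nat.lt_succ_of_le (Nat.unpair_left_le m)).ne

/-- The finite compositions of slides, with their sizes. -/
noncomputable def st : ℕ → (X ≃ₜ X) × ℝ
  | 0 => (Homeomorph.refl X, 1)
  | m + 1 =>
    ((st m).1.trans (slideH (Real.exp_pos (-(min ((st m).2 / 2)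
        ((exists_modulus (st m).1 m).choose / 4)))) (idx_ne m)),
      min ((st m).2 / 2) ((exists_modulus (st m).1 m).choose / 4))

lemma st_pos (m : ℕ) : 0 < (st m).2 := by
  induction m with
  | zero => simp [st]
  | succ m ih =>
    have := (exists_modulus (st m).1 m).choose_spec.1
    simp only [st]
    exact lt_min (by linarith) (by linarith)

lemma st_half (m : ℕ) : (st (m + 1)).2 ≤ (st m).2 / 2 := min_le_left _ _

lemma st_mod (m : ℕ) : (st (m + 1)).2 ≤ (exists_modulus (st m).1 m).choose / 4 :=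
  min_le_right _ _

lemma st_succ (m : ℕ) (x : X) : (st (m + 1)).1 x =
    slide (Real.exp_pos (-(st (m + 1)).2)) (Nat.unpair m).1 (m + 1) ((st m).1 x) := rfl

lemma exp_neg_le_one (m : ℕ) : Real.exp (-(st m).2) ≤ 1 :=
  Real.exp_le_one_iff.mpr (by linarith [st_pos m])

lemma st_le (m : ℕ) : (st m).2 ≤ (1 / 2) ^ m := by
  induction m with
  | zero => simp [st]
  | succ m ih => have := st_half m; rw [pow_succ]; linarith

lemma st_tendsto : Tendsto (fun m => (st m).2) atTop (𝓝 0) :=
  squeeze_zero (fun m => (st_pos m).le) st_le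
    (tendsto_pow_atTop_nhds_zero_of_lt_one (by norm_num) (by norm_num))

lemma st_step (m : ℕ) (x : X) (k : ℕ) :
    |((st (m + 1)).1 x k : ℝ) - (st m).1 x k| ≤ (st (m + 1)).2 := by
  rw [st_succ]
  refine (slide_close _ (exp_neg_le_one _) (idx_ne m) _ k).trans ?_
  have := Real.add_one_le_exp (-(st (m + 1)).2)
  linarith

lemma st_steps (m n : ℕ) (hmn : m ≤ n) (x : X) (k : ℕ) :
    |((st n).1 x k : ℝ) - (st m).1 x k| ≤ 2 * (st (m + 1)).2 - 2 * (st (n + 1)).2 := by
  induction n, hmn using Nat.le_induction with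
  | base => simp
  | succ n _ ih =>
    have h1 := st_step n x k
    have h2 := st_half (n + 1)
    have h3 := abs_sub_le ((st (n + 1)).1 x k : ℝ) ((st n).1 x k) ((st m).1 x k)
    linarith

lemma st_far (m : ℕ) (x : X) (k : ℕ) (hk : m < k) : (st m).1 x k = x k := by
  induction m with
  | zero => rfl
  | succ m ih =>
    rw [st_succ, slide_other _ _ hk.ne', ih (by omega)]
    have := Nat.unpair_left_le m
    omega

lemma st_top (m : ℕ) (x : X) (hx : |(x (m + 1) : ℝ)| = 1) (k : ℕ) :
    ((st (m + 1)).1 x k : ℝ) =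
      (if k = (Nat.unpair m).1 then Real.exp (-(st (m + 1)).2) else 1) * (st m).1 x k := by
  rw [st_succ, slide_top _ (exp_neg_le_one _) (idx_ne m)]
  rw [st_far m x (m + 1) (Nat.lt_succ_self m)]
  exact hx

/-- The coordinate functions of the finite compositions. -/
noncomputable def stc (k m : ℕ) : C(X, ℝ) :=
  ⟨fun x => ((st m).1 x k : ℝ), by fun_prop⟩

lemma stc_cauchy (k : ℕ) : CauchySeq (stc k) := by
  refine cauchySeq_of_le_geometric (1 / 2) 1 (by norm_num) fun m => ?_
  rw [dist_comm, ContinuousMap.dist_le (by positivity)]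
  intro x
  rw [Real.dist_eq]
  refine (st_step m x k).trans ((st_le _).trans ?_)
  rw [pow_succ]
  have : (0 : ℝ) < (1 / 2) ^ m := by positivity
  linarith

theorem exists_push : ∃ C : X ≃ₜ X,
    (∀ (K : ℕ) (w : X), (∀ j, K ≤ j → |(w j : ℝ)| = 1) → ∀ k, |(C w k : ℝ)| < 1) ∧
    (∀ (k : ℕ) (w w' : X), (∀ j, k ≤ j → |(w j : ℝ)| = 1) → (∀ j, k ≤ j → |(w' j : ℝ)| = 1) →
      |(C w k : ℝ)| = |(C w' k : ℝ)|) := by
  choose g hg using fun k => cauchySeq_tendsto_of_complete (stc_cauchy k)
  have hpt : ∀ k x, Tendsto (fun m => ((st m).1 x k : ℝ)) atTop (𝓝 (g k x)) := by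
    intro k x
    exact ((continuous_eval_const x).tendsto (g k)).comp (hg k)
  have hmem : ∀ k x, g k x ∈ Set.Icc (-1 : ℝ) 1 := fun k x =>
    isClosed_Icc.mem_of_tendsto (hpt k x) (Eventually.of_forall fun m => ((st m).1 x k).2)
  let G : X → X := fun x k => ⟨g k x, hmem k x⟩
  have hGc : Continuous G :=
    continuous_pi fun k => Continuous.subtype_mk (g k).continuous _
  have happrox : ∀ m x k, |(G x k : ℝ) - (st m).1 x k| ≤ 2 * (st (m + 1)).2 := by
    intro m x k
    have h1 : Tendsto (fun n => |((st n).1 x k : ℝ) - (st m).1 x k|) atTop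
        (𝓝 |g k x - (st m).1 x k|) := ((hpt k x).sub_const _).abs
    refine le_of_tendsto h1 ?_
    filter_upwards [eventually_ge_atTop m] with n hn
    have := st_steps m n hn x k
    have := st_pos (n + 1)
    linarith
  have hinj : Function.Injective G := by
    intro x x' h
    funext k
    apply Subtype.ext
    have : |(x k : ℝ) - x' k| ≤ 0 := by
      refine ge_of_tendsto tendsto_one_div_add_atTop_nhds_zero_nat ?_
      filter_upwards [eventually_ge_atTop k] with m hm
      refine ((exists_modulus (st m).1 m).choose_spec.2 x x' (fun i => ?_) k hm).le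
      have h1 := happrox m x i
      have h2 := happrox m x' i
      have h3 := st_mod m
      rw [h] at h1
      have h4 := abs_sub_le ((st m).1 x i : ℝ) (G x' i) ((st m).1 x' i)
      rw [abs_sub_comm] at h1
      linarith
    exact sub_eq_zero.mp (abs_nonpos_iff.mp this)
  have hsurj : Function.Surjective G := by
    intro y
    have hcl : IsClosed (range G) := (isCompact_range hGc).isClosed
    suffices h : Tendsto (fun m => G ((st m).1.symm y)) atTop (𝓝 y) from
      hcl.mem_of_tendsto h (Eventually.of_forall fun m => mem_range_self _)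
    rw [tendsto_pi_nhds]
    intro k
    rw [tendsto_subtype_rng, tendsto_iff_dist_tendsto_zero]
    have h0 : Tendsto (fun m => 2 * (st (m + 1)).2) atTop (𝓝 0) := by
      simpa using (st_tendsto.comp (tendsto_add_atTop_nat 1)).const_mul 2
    refine squeeze_zero (fun _ => dist_nonneg) (fun m => ?_) h0
    have := happrox m ((st m).1.symm y) k
    rwa [Homeomorph.apply_symm_apply] at this
  refine ⟨Continuous.homeoOfEquivCompactToT2 (f := Equiv.ofBijective G ⟨hinj, hsurj⟩) hGc, ?_, ?_⟩
  · intro K w hw k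
    change |g k w| < 1
    set m0 := Nat.pair k K with hm0
    have hK : K ≤ m0 := Nat.right_le_pair k K
    have hk : (Nat.unpair m0).1 = k := by simp [hm0]
    have hb : ∀ n, m0 + 1 ≤ n → |((st n).1 w k : ℝ)| ≤ Real.exp (-(st (m0 + 1)).2) := by
      intro n hn
      induction n, hn using Nat.le_induction with
      | base =>
        rw [st_top m0 w (hw _ (by omega)), if_pos hk.symm, abs_mul, abs_of_pos (Real.exp_pos _)]
        exact mul_le_of_le_one_right (Real.exp_pos _).le (abs_le_one _)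
      | succ n hn ih =>
        rw [st_top n w (hw _ (by omega)), abs_mul]
        refine le_trans (mul_le_of_le_one_left (abs_nonneg _) ?_) ih
        split_ifs
        · rw [abs_of_pos (Real.exp_pos _)]; exact exp_neg_le_one _
        · simp
    have : |g k w| ≤ Real.exp (-(st (m0 + 1)).2) :=
      le_of_tendsto (hpt k w).abs ((eventually_ge_atTop (m0 + 1)).mono hb)
    refine this.trans_lt ?_
    exact Real.exp_lt_one_iff.mpr (by linarith [st_pos (m0 + 1)])
  · intro k w w' hw hw'
    change |g k w| = |g k w'|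
    have hb : ∀ n, |((st n).1 w k : ℝ)| = |((st n).1 w' k : ℝ)| := by
      intro n
      induction n with
      | zero =>
        change |(w k : ℝ)| = |(w' k : ℝ)|
        rw [hw k le_rfl, hw' k le_rfl]
      | succ n ih =>
        by_cases hk : n + 1 < k
        · rw [st_far _ _ _ hk, st_far _ _ _ hk, hw k le_rfl, hw' k le_rfl]
        · rw [st_top n w (hw _ (by omega)), st_top n w' (hw' _ (by omega)), abs_mul, abs_mul, ih]
    refine tendsto_nhds_unique (hpt k w).abs ?_
    simp only [hb]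
    exact (hpt k w').abs

end Pool.Agent.MP_08a145_lc

end MrgPart1

-- ======== part 2: formerly Pool.Agent.MP_08a145_lc.Random
section MrgPart2

/-! Random coordinatewise homeomorphisms of the cube `[-1,1]^ℕ`. -/

set_option autoImplicit false

open Set Filter Topology MeasureTheory

namespace Pool.Agent.MP_08a145_lc

instance circleProb : IsProbabilityMeasure (volume : Measure UnitAddCircle) :=
  ⟨UnitAddCircle.measure_univ⟩

/-- The representative in `(-1/2, 1/2]` of a point of the circle. -/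
noncomputable def lift (u : UnitAddCircle) : ℝ := (AddCircle.equivIoc 1 (-(1 / 2)) u : ℝ)

lemma lift_mem (u : UnitAddCircle) : -(1 / 2) < lift u ∧ lift u ≤ 1 / 2 := by
  have := (AddCircle.equivIoc 1 (-(1 / 2)) u).2
  refine ⟨this.1, this.2.trans (by norm_num)⟩

lemma coe_lift (u : UnitAddCircle) : ((lift u : ℝ) : UnitAddCircle) = u :=
  AddCircle.coe_equivIoc

lemma lift_coe {t : ℝ} (ht : |t| < 1 / 2) : lift (t : UnitAddCircle) = t := by
  have h := abs_lt.mp ht
  have hm : t ∈ Ioc (-(1 / 2) : ℝ) (-(1 / 2) + 1) := ⟨h.1, by linarith [h.2]⟩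
  unfold lift
  rw [AddCircle.equivIoc_coe_eq hm]

lemma measurable_lift : Measurable lift :=
  measurable_subtype_coe.comp (AddCircle.measurableEquivIoc 1 (-(1 / 2))).measurable

lemma dist_coe_le (s t : ℝ) : dist (s : UnitAddCircle) (t : UnitAddCircle) ≤ |s - t| := by
  rw [dist_eq_norm, ← AddCircle.coe_sub]
  exact QuotientAddGroup.norm_mk_le_norm

/-- The sign attached to a Boolean. -/
def sg (b : Bool) : ℝ := if b then 1 else -1

lemma abs_sg (b : Bool) : |sg b| = 1 := by cases b <;> simp [sg]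

lemma sg_mul_self (b : Bool) : sg b * sg b = 1 := by cases b <;> simp [sg]

/-- The parameters read off from a point of the circle. -/
noncomputable def par (T : ℝ) (u : UnitAddCircle) : Bool × ℝ :=
  (decide (0 ≤ lift u), T * lift u)

lemma measurable_par (T : ℝ) : Measurable (par T) := by
  refine Measurable.prodMk ?_ (measurable_lift.const_mul T)
  refine measurable_to_bool ?_
  have : (fun u => decide (0 ≤ lift u)) ⁻¹' {true} = {u | 0 ≤ lift u} := by
    ext u; simp
  rw [this]
  exact measurableSet_le measurable_const measurable_lift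

lemma act_mem (θ : Bool × ℝ) (y : J) : sg θ.1 * mob θ.2 y ∈ Set.Icc (-1 : ℝ) 1 := by
  apply abs_le.mp
  rw [abs_mul, abs_sg, one_mul]
  exact abs_mob_le _ (abs_le_one y)

lemma abs_sg_mul_le (b : Bool) (y : J) : |sg b * (y : ℝ)| ≤ 1 := by
  rw [abs_mul, abs_sg, one_mul]; exact abs_le_one y

/-- The signed flow on one coordinate. -/
noncomputable def act (θ : Bool × ℝ) (y : J) : J := ⟨sg θ.1 * mob θ.2 y, act_mem θ y⟩

/-- The inverse of the signed flow on one coordinate. -/
noncomputable def actInv (θ : Bool × ℝ) (y : J) : J :=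
  ⟨mob (-θ.2) (sg θ.1 * y), abs_le.mp (abs_mob_le _ (abs_sg_mul_le _ y))⟩

lemma continuous_sg : Continuous sg := continuous_of_discreteTopology

lemma continuous_act : Continuous fun p : (Bool × ℝ) × J => act p.1 p.2 := by
  refine Continuous.subtype_mk ?_ _
  have h1 : Continuous fun p : (Bool × ℝ) × J => mob p.1.2 p.2 :=
    continuousOn_mob.comp_continuous (f := fun p : (Bool × ℝ) × J => (p.1.2, (p.2 : ℝ)))
      (by fun_prop) (fun p => abs_le_one p.2)
  exact (continuous_sg.comp (by fun_prop)).mul h1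

lemma continuous_actInv (θ : Bool × ℝ) : Continuous (actInv θ) := by
  refine Continuous.subtype_mk ?_ _
  exact continuousOn_mob.comp_continuous (f := fun y : J => (-θ.2, sg θ.1 * (y : ℝ)))
      (by fun_prop) (fun y => abs_sg_mul_le _ y)

lemma actInv_act (θ : Bool × ℝ) (y : J) : actInv θ (act θ y) = y := by
  apply Subtype.ext
  change mob (-θ.2) (sg θ.1 * (sg θ.1 * mob θ.2 y)) = y
  rw [← mul_assoc, sg_mul_self, one_mul, mob_add _ _ (abs_le_one y), neg_add_cancel, mob_zero]

lemma act_actInv (θ : Bool × ℝ) (y : J) : act θ (actInv θ y) = y := by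
  apply Subtype.ext
  change sg θ.1 * mob θ.2 (mob (-θ.2) (sg θ.1 * y)) = y
  rw [mob_add _ _ (abs_sg_mul_le _ y), add_neg_cancel, mob_zero, ← mul_assoc, sg_mul_self, one_mul]

/-- The coordinatewise signed flow. -/
noncomputable def actX (θ : ℕ → Bool × ℝ) : X ≃ₜ X where
  toFun x k := act (θ k) (x k)
  invFun x k := actInv (θ k) (x k)
  left_inv x := funext fun k => actInv_act _ _
  right_inv x := funext fun k => act_actInv _ _
  continuous_toFun := continuous_pi fun k =>
    continuous_act.comp (f := fun x : X => (θ k, x k)) (by fun_prop)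
  continuous_invFun := continuous_pi fun k => (continuous_actInv _).comp (continuous_apply k)

lemma continuous_actX : Continuous fun p : (ℕ → Bool × ℝ) × X => actX p.1 p.2 :=
  continuous_pi fun k =>
    continuous_act.comp (f := fun p : (ℕ → Bool × ℝ) × X => (p.1 k, p.2 k)) (by fun_prop)

lemma far_coord {ε R T : ℝ} (hε : 0 < ε) (hT : 0 < T)
    (hR : ∀ s : ℝ, R ≤ |s| → 1 - ε ≤ |mob s 0|) (y : J) :
    ∃ c : UnitAddCircle, ∀ u, u ∉ Metric.closedBall c (R / T) →
      1 - ε ≤ |(act (par T u) y : ℝ)| := by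
  refine ⟨((-psi y / T : ℝ) : UnitAddCircle), fun u hu => ?_⟩
  change 1 - ε ≤ |sg _ * mob (T * lift u) y|
  rw [abs_mul, abs_sg, one_mul]
  rcases eq_or_lt_of_le (abs_le_one y) with h | h
  · rw [abs_mob_of_abs_eq_one _ h]; linarith
  · rw [mob_eq_of_lt _ h]
    apply hR
    by_contra hlt
    apply hu
    rw [Metric.mem_closedBall, ← coe_lift u]
    refine (dist_coe_le _ _).trans ?_
    have : lift u - -psi y / T = (T * lift u + psi y) / T := by field_simp; ring
    rw [this, abs_div, abs_of_pos hT]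
    exact div_le_div_of_nonneg_right (not_le.mp hlt).le hT.le

lemma abs_lift_bounds {δ : ℝ} {u : UnitAddCircle} (h0 : u ∉ Metric.closedBall (0 : UnitAddCircle) δ)
    (h1 : u ∉ Metric.closedBall (((1 / 2 : ℝ)) : UnitAddCircle) δ) :
    δ < |lift u| ∧ |lift u| < 1 / 2 - δ := by
  rw [Metric.mem_closedBall, not_le, ← coe_lift u] at h0 h1
  have hm := lift_mem u
  have e0 : (0 : UnitAddCircle) = ((0 : ℝ) : UnitAddCircle) := rfl
  have e1 : (((1 / 2 : ℝ)) : UnitAddCircle) = ((-(1 / 2) : ℝ) : UnitAddCircle) := by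
    have : (1 / 2 : ℝ) = -(1 / 2) + 1 := by norm_num
    rw [this, AddCircle.coe_add_period]
    norm_num
  have a0 := h0.trans_le (e0 ▸ dist_coe_le (lift u) 0)
  have a1 := h1.trans_le (dist_coe_le (lift u) (1 / 2))
  have a2 := (e1 ▸ h1).trans_le (dist_coe_le (lift u) (-(1 / 2)))
  rw [sub_zero] at a0
  rw [abs_of_nonpos (by linarith [hm.2])] at a1
  rw [abs_of_pos (by linarith [hm.1])] at a2
  refine ⟨a0, abs_lt.mpr ⟨by linarith, by linarith⟩⟩

lemma couple_coord (y y' : J) (hy : |(y : ℝ)| < 1) (hy' : |(y' : ℝ)| < 1) {δ : ℝ}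
    (hδ : |(|psi y| - |psi y'|)| ≤ δ) :
    ∃ τ : UnitAddCircle → UnitAddCircle, MeasurePreserving τ volume volume ∧
      ∀ u, u ∉ Metric.closedBall (0 : UnitAddCircle) δ →
        u ∉ Metric.closedBall (((1 / 2 : ℝ)) : UnitAddCircle) δ →
        act (par 1 u) y = act (par 1 (τ u)) y' := by
  have hcase : |psi y - psi y'| ≤ δ ∨ |-psi y - psi y'| ≤ δ := by
    rcases abs_cases (psi y) with h | h <;> rcases abs_cases (psi y') with h' | h'
    · left; rwa [h.1, h'.1] at hδ
    · right
      rw [h.1, h'.1] at hδ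
      rwa [← abs_neg, show -(-psi y - psi y') = psi y - -psi y' by ring]
    · right; rwa [h.1, h'.1] at hδ
    · left
      rw [h.1, h'.1] at hδ
      rwa [← abs_neg, show -(psi y - psi y') = -psi y - -psi y' by ring]
  rcases hcase with h | h
  · refine ⟨fun u => u + ((psi y - psi y' : ℝ) : UnitAddCircle),
      measurePreserving_add_right _ _, fun u h0 h1 => ?_⟩
    obtain ⟨b0, b1⟩ := abs_lift_bounds h0 h1
    have hl : lift (u + ((psi y - psi y' : ℝ) : UnitAddCircle)) = lift u + (psi y - psi y') := by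
      conv_lhs => rw [← coe_lift u, ← AddCircle.coe_add]
      apply lift_coe
      linarith [abs_add_le (lift u) (psi y - psi y')]
    apply Subtype.ext
    change sg (decide (0 ≤ lift u)) * mob (1 * lift u) y =
      sg (decide (0 ≤ lift (u + _))) * mob (1 * lift (u + _)) y'
    rw [hl, mob_eq_of_lt _ hy, mob_eq_of_lt _ hy']
    have hs : (0 ≤ lift u) ↔ (0 ≤ lift u + (psi y - psi y')) := by
      have := abs_le.mp h
      rcases abs_cases (lift u) with h2 | h2 <;> constructor <;> intro h3 <;> linarith [h2.1, h2.2]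
    rw [decide_eq_decide.mpr hs]
    congr 2
    ring
  · refine ⟨fun u => -u + ((-psi y - psi y' : ℝ) : UnitAddCircle),
      (measurePreserving_add_right _ _).comp (Measure.measurePreserving_neg _), fun u h0 h1 => ?_⟩
    obtain ⟨b0, b1⟩ := abs_lift_bounds h0 h1
    have hl : lift (-u + ((-psi y - psi y' : ℝ) : UnitAddCircle)) =
        -lift u + (-psi y - psi y') := by
      conv_lhs => rw [← coe_lift u, ← AddCircle.coe_neg, ← AddCircle.coe_add]
      apply lift_coe
      have := abs_add_le (-lift u) (-psi y - psi y')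
      rw [abs_neg] at this
      linarith
    apply Subtype.ext
    change sg (decide (0 ≤ lift u)) * mob (1 * lift u) y =
      sg (decide (0 ≤ lift (-u + _))) * mob (1 * lift (-u + _)) y'
    rw [hl, mob_eq_of_lt _ hy, mob_eq_of_lt _ hy']
    have e : 1 * (-lift u + (-psi y - psi y')) + psi y' = -(1 * lift u + psi y) := by ring
    rw [e, mob_neg_zero]
    have hb := abs_le.mp h
    rcases abs_cases (lift u) with h2 | h2
    · have p1 : 0 ≤ lift u := h2.2
      have p2 : ¬ 0 ≤ -lift u + (-psi y - psi y') := by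
        intro h3; linarith [h2.1]
      simp [sg, p1, p2]
    · have p1 : ¬ 0 ≤ lift u := not_le.mpr h2.2
      have p2 : 0 ≤ -lift u + (-psi y - psi y') := by linarith [h2.1]
      simp [sg, p1, p2]

/-- The product of the uniform measures on the circle. -/
noncomputable def P : Measure (ℕ → UnitAddCircle) := Measure.infinitePi fun _ => volume

instance : IsProbabilityMeasure P := by unfold P; infer_instance

lemma measure_bad (S : ℕ → Set UnitAddCircle) {β : ℝ} (hβ : 0 ≤ β)
    (h : ∀ k, volume (S k) ≤ ENNReal.ofReal (β * (1 / 2) ^ k)) :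
    P {ω | ∃ k, ω k ∈ S k} ≤ ENNReal.ofReal (2 * β) := by
  have e : {ω : ℕ → UnitAddCircle | ∃ k, ω k ∈ S k} = ⋃ k, Function.eval k ⁻¹' S k := by
    ext ω; simp
  rw [e]
  refine (measure_iUnion_le _).trans ?_
  have h1 : ∀ k, P (Function.eval k ⁻¹' S k) ≤ ENNReal.ofReal (β * (1 / 2) ^ k) := fun k =>
    ((measurePreserving_eval_infinitePi (fun _ : ℕ => (volume : Measure UnitAddCircle))
      k).measure_preimage_le _).trans (h k)
  refine (ENNReal.tsum_le_tsum h1).trans ?_
  rw [← ENNReal.ofReal_tsum_of_nonneg (fun k => by positivity)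
    (summable_geometric_two.mul_left β), tsum_mul_left, tsum_geometric_two, mul_comm]

lemma volume_ball_le (c : UnitAddCircle) (r : ℝ) :
    volume (Metric.closedBall c r) ≤ ENNReal.ofReal (2 * r) := by
  rw [AddCircle.volume_closedBall]
  exact ENNReal.ofReal_le_ofReal (min_le_right _ _)

/-- The law of the parameters. -/
noncomputable def law (T : ℕ → ℝ) : Measure (ℕ → Bool × ℝ) :=
  P.map fun ω k => par (T k) (ω k)

lemma measurable_pars (T : ℕ → ℝ) :
    Measurable fun (ω : ℕ → UnitAddCircle) k => par (T k) (ω k) :=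
  measurable_pi_lambda _ fun k => (measurable_par _).comp (measurable_pi_apply k)

instance (T : ℕ → ℝ) : IsProbabilityMeasure (law T) :=
  Measure.isProbabilityMeasure_map (measurable_pars T).aemeasurable

lemma measurable_actX_apply (x : X) : Measurable fun θ : ℕ → Bool × ℝ => actX θ x :=
  (continuous_actX.comp (f := fun θ : ℕ → Bool × ℝ => (θ, x)) (by fun_prop)).measurable

/-- Points whose far coordinates are close to the end points. -/
def W (ε : ℕ → ℝ) (K : ℕ) : Set X := {w | ∀ j, K ≤ j → 1 - ε j ≤ |(w j : ℝ)|}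

lemma isClosed_W (ε : ℕ → ℝ) (K : ℕ) : IsClosed (W ε K) := by
  have : W ε K = ⋂ j, ⋂ _ : K ≤ j, {w : X | 1 - ε j ≤ |(w j : ℝ)|} := by
    ext w; simp [W]
  rw [this]
  exact isClosed_iInter fun j => isClosed_iInter fun _ =>
    isClosed_le continuous_const (by fun_prop)

lemma exists_first_stage (ε : ℕ → ℝ) (hε : ∀ j, 0 < ε j) : ∃ T : ℕ → ℝ, ∀ (x : X) (K : ℕ),
    law T {θ | actX θ x ∉ W ε K} ≤ ENNReal.ofReal (4 * (1 / 2) ^ K) := by
  choose R hR0 hR using fun j => exists_far (hε j)
  refine ⟨fun j => R j * 4 ^ j, fun x K => ?_⟩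
  have hT : ∀ j, 0 < R j * 4 ^ j := fun j => by have := hR0 j; positivity
  choose c hc using fun j => far_coord (hε j) (hT j) (hR j) (x j)
  have hmeas : MeasurableSet {θ | actX θ x ∉ W ε K} :=
    measurable_actX_apply x (isClosed_W ε K).measurableSet.compl
  unfold law
  rw [Measure.map_apply (measurable_pars _) hmeas]
  let S : ℕ → Set UnitAddCircle := fun j =>
    if K ≤ j then Metric.closedBall (c j) (R j / (R j * 4 ^ j)) else ∅
  have h1 := measure_bad S (β := 2 * (1 / 2) ^ K) (by positivity) (by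
    intro j
    simp only [S]
    split_ifs with hj
    · refine (volume_ball_le _ _).trans (ENNReal.ofReal_le_ofReal ?_)
      have e : R j / (R j * 4 ^ j) = (1 / 2) ^ j * (1 / 2) ^ j := by
        have := (hR0 j).ne'
        rw [← mul_pow]
        field_simp
        rw [← mul_pow]; norm_num
      have : (1 / 2 : ℝ) ^ j ≤ (1 / 2) ^ K := pow_le_pow_of_le_one (by norm_num) (by norm_num) hj
      have h2 : (0 : ℝ) < (1 / 2) ^ j := by positivity
      rw [e]; nlinarith
    · simp)
  refine le_trans (measure_mono ?_) (h1.trans (le_of_eq (by congr 1; ring)))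
  intro ω hω
  by_contra hne
  apply hω
  intro j hj
  apply hc j
  intro hmem
  exact hne ⟨j, by simpa [S, hj] using hmem⟩

lemma second_stage (z z' : X) (hz : ∀ k, |(z k : ℝ)| < 1) (hz' : ∀ k, |(z' k : ℝ)| < 1) {β : ℝ}
    (hβ : 0 ≤ β) (h : ∀ k, |(|psi (z k)| - |psi (z' k)|)| ≤ β * (1 / 2) ^ k) {B : Set X}
    (hB : MeasurableSet B) :
    law (fun _ => 1) {θ | actX θ z ∈ B} ≤
      ENNReal.ofReal (8 * β) + law (fun _ => 1) {θ | actX θ z' ∈ B} := by
  choose τ hτ hτ' using fun k => couple_coord (z k) (z' k) (hz k) (hz' k) (h k)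
  unfold law
  have m1 : MeasurableSet {θ | actX θ z ∈ B} := measurable_actX_apply z hB
  have m2 : MeasurableSet {θ | actX θ z' ∈ B} := measurable_actX_apply z' hB
  rw [Measure.map_apply (measurable_pars _) m1, Measure.map_apply (measurable_pars _) m2]
  let S : ℕ → Set UnitAddCircle := fun k =>
    Metric.closedBall 0 (β * (1 / 2) ^ k) ∪
      Metric.closedBall (((1 / 2 : ℝ)) : UnitAddCircle) (β * (1 / 2) ^ k)
  have h1 := measure_bad S (β := 4 * β) (by positivity) (by
    intro k
    refine (measure_union_le _ _).trans ?_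
    refine (add_le_add (volume_ball_le _ _) (volume_ball_le _ _)).trans ?_
    rw [← ENNReal.ofReal_add (by positivity) (by positivity)]
    exact le_of_eq (by congr 1; ring))
  have hmp : MeasurePreserving (fun (ω : ℕ → UnitAddCircle) k => τ k (ω k)) P P := by
    refine ⟨measurable_pi_lambda _ fun k => (hτ k).measurable.comp (measurable_pi_apply k), ?_⟩
    unfold P
    rw [Measure.infinitePi_map_pi _ (fun k => (hτ k).measurable)]
    congr 1
    funext k
    exact (hτ k).map_eq
  refine le_trans (measure_mono (t := {ω | ∃ k, ω k ∈ S k} ∪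
    (fun (ω : ℕ → UnitAddCircle) k => τ k (ω k)) ⁻¹'
      ((fun (ω : ℕ → UnitAddCircle) k => par 1 (ω k)) ⁻¹' {θ | actX θ z' ∈ B})) ?_) ?_
  · intro ω hω
    by_cases hb : ∃ k, ω k ∈ S k
    · exact Or.inl hb
    · right
      have e : actX (fun k => par 1 (τ k (ω k))) z' = actX (fun k => par 1 (ω k)) z := by
        funext k
        exact (hτ' k (ω k) (fun h0 => hb ⟨k, Or.inl h0⟩) (fun h0 => hb ⟨k, Or.inr h0⟩)).symm
      change actX (fun k => par 1 (τ k (ω k))) z' ∈ B
      rw [e]
      exact hω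
  · refine (measure_union_le _ _).trans (add_le_add ?_ (hmp.measure_preimage_le _))
    exact h1.trans (le_of_eq (by congr 1; ring))

end Pool.Agent.MP_08a145_lc

end MrgPart2

-- ======== part 3: formerly Pool.Agent.MP_08a145_lc.Estimate
section MrgPart3

/-! A random homeomorphism of the cube whose one point laws are uniformly almost dominated. -/

set_option autoImplicit false

open Set Filter Topology MeasureTheory

namespace Pool.Agent.MP_08a145_lc

/-- The corner point with all coordinates equal to one. -/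
def oneX : X := fun _ => ⟨1, by constructor <;> norm_num⟩

lemma continuousAt_abs_psi (C : X ≃ₜ X) (k : ℕ) {w : X} (hw : |(C w k : ℝ)| < 1) :
    ContinuousAt (fun v : X => |psi (C v k)|) w := by
  have h1 : Continuous fun v : X => (C v k : ℝ) := by fun_prop
  exact (ContinuousAt.comp (f := fun v : X => (C v k : ℝ)) (continuousAt_psi hw)
    h1.continuousAt).abs

lemma exists_tolerance : ∃ (C : X ≃ₜ X) (ε : ℕ → ℝ) (a : ℕ → ℝ), (∀ j, 0 < ε j) ∧
    (∀ K, ∀ w ∈ W ε K, ∀ k, |(C w k : ℝ)| < 1) ∧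
    (∀ K, ∀ w ∈ W ε K, ∀ k, K ≤ k → |(|psi (C w k)| - a k)| ≤ (1 / 2) ^ k * (1 / 2) ^ k) := by
  obtain ⟨C, hC1, hC2⟩ := exists_push
  have key : ∀ k : ℕ, ∃ θ : ℝ, 0 < θ ∧ ∀ w ∈ W (fun _ => θ) k, (∀ i ≤ k, |(C w i : ℝ)| < 1) ∧
      |(|psi (C w k)| - |psi (C oneX k)|)| ≤ (1 / 2) ^ k * (1 / 2) ^ k := by
    intro k
    let V : ℕ → Set X := fun n => W (fun _ => 1 / ((n : ℝ) + 1)) k
    have hanti : Antitone V := by
      intro a b hab p hp j hj
      refine le_trans ?_ (hp j hj)
      have : 1 / ((b : ℝ) + 1) ≤ 1 / ((a : ℝ) + 1) := by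
        apply one_div_le_one_div_of_le (by positivity)
        exact_mod_cast Nat.succ_le_succ hab
      linarith
    obtain ⟨n, hn⟩ := exists_subset_nhds_of_compactSpace (V := V)
      (U := {w | (∀ i ≤ k, |(C w i : ℝ)| < 1) ∧
        |(|psi (C w k)| - |psi (C oneX k)|)| ≤ (1 / 2) ^ k * (1 / 2) ^ k})
      hanti.directed_ge (fun n => isClosed_W _ _) (by
        intro w hw
        have hw1 : ∀ j, k ≤ j → |(w j : ℝ)| = 1 := by
          intro j hj
          refine le_antisymm (abs_le_one _) ?_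
          have h0 : Tendsto (fun n : ℕ => 1 - 1 / ((n : ℝ) + 1)) atTop (𝓝 (1 - 0)) :=
            tendsto_one_div_add_atTop_nhds_zero_nat.const_sub 1
          rw [sub_zero] at h0
          exact le_of_tendsto' h0 fun n => mem_iInter.mp hw n j hj
        have hlt := hC1 k w hw1
        have e : |psi (C w k)| = |psi (C oneX k)| :=
          abs_psi_eq_of_abs_eq (hC2 k w oneX hw1 (fun j _ => by simp [oneX]))
        have a1 : ∀ᶠ v in 𝓝 w, ∀ i ∈ Finset.range (k + 1), |(C v i : ℝ)| < 1 := by
          rw [eventually_all_finset]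
          intro i _
          have h1 : Continuous fun v : X => |(C v i : ℝ)| := by fun_prop
          exact h1.continuousAt.eventually_lt continuousAt_const (hlt i)
        have a2 : ∀ᶠ v in 𝓝 w,
            |(|psi (C v k)| - |psi (C oneX k)|)| < (1 / 2) ^ k * (1 / 2) ^ k := by
          refine ContinuousAt.eventually_lt
            (((continuousAt_abs_psi C k (hlt k)).sub continuousAt_const).abs) continuousAt_const ?_
          rw [e, sub_self, abs_zero]
          positivity
        filter_upwards [a1, a2] with v h1 h2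
        exact ⟨fun i hi => h1 i (Finset.mem_range.mpr (Nat.lt_succ_of_le hi)), h2.le⟩)
    exact ⟨1 / ((n : ℝ) + 1), by positivity, fun w hw => hn hw⟩
  choose θ hθ0 hθ using key
  let ε : ℕ → ℝ := fun j => (Finset.range (j + 1)).inf' Finset.nonempty_range_add_one θ
  have hε0 : ∀ j, 0 < ε j := fun j => (Finset.lt_inf'_iff _).mpr fun i _ => hθ0 i
  have hsub : ∀ K k, K ≤ k → ∀ w ∈ W ε K, w ∈ W (fun _ => θ k) k := by
    intro K k hk w hw j hj
    have h1 := hw j (hk.trans hj)
    have h2 : ε j ≤ θ k := Finset.inf'_le θ (Finset.mem_range.mpr (Nat.lt_succ_of_le hj))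
    linarith
  refine ⟨C, ε, fun k => |psi (C oneX k)|, hε0, fun K w hw k => ?_, fun K w hw k hk => ?_⟩
  · exact (hθ (max K k) w (hsub K _ (le_max_left _ _) w hw)).1 k (le_max_right _ _)
  · exact (hθ k w (hsub K k hk w hw)).2

lemma exists_net (C : X ≃ₜ X) (ε a : ℕ → ℝ) (K : ℕ)
    (h1 : ∀ w ∈ W ε K, ∀ k, |(C w k : ℝ)| < 1)
    (h2 : ∀ w ∈ W ε K, ∀ k, K ≤ k → |(|psi (C w k)| - a k)| ≤ (1 / 2) ^ k * (1 / 2) ^ k) :
    ∃ t : Finset X, (∀ w ∈ t, w ∈ W ε K) ∧ ∀ w ∈ W ε K, ∃ v ∈ t, ∀ k,
      |(|psi (C w k)| - |psi (C v k)|)| ≤ 2 * (1 / 2) ^ K * (1 / 2) ^ k := by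
  obtain ⟨t, ht, hcov⟩ := (isClosed_W ε K).isCompact.elim_nhds_subcover
    (fun v => {w | ∀ k ∈ Finset.range K,
      |(|psi (C w k)| - |psi (C v k)|)| < 2 * (1 / 2) ^ K * (1 / 2) ^ k}) (by
      intro v hv
      change ∀ᶠ w in 𝓝 v, ∀ k ∈ Finset.range K,
        |(|psi (C w k)| - |psi (C v k)|)| < 2 * (1 / 2) ^ K * (1 / 2) ^ k
      rw [eventually_all_finset]
      intro k _
      refine ContinuousAt.eventually_lt
        (((continuousAt_abs_psi C k (h1 v hv k)).sub continuousAt_const).abs) continuousAt_const ?_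
      rw [sub_self, abs_zero]
      positivity)
  refine ⟨t, ht, fun w hw => ?_⟩
  obtain ⟨v, hv, hwv⟩ := mem_iUnion₂.mp (hcov hw)
  refine ⟨v, hv, fun k => ?_⟩
  rcases lt_or_ge k K with hk | hk
  · exact (hwv k (Finset.mem_range.mpr hk)).le
  · have b1 := h2 w hw k hk
    have b2 := h2 v (ht v hv) k hk
    have b3 := abs_sub_le |psi (C w k)| (a k) |psi (C v k)|
    rw [abs_sub_comm] at b2
    have b4 : (1 / 2 : ℝ) ^ k ≤ (1 / 2) ^ K := pow_le_pow_of_le_one (by norm_num) (by norm_num) hk
    have b5 : (0 : ℝ) < (1 / 2) ^ k := by positivity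
    nlinarith

/-- The parameter space of the random homeomorphism. -/
abbrev Par : Type := (ℕ → Bool × ℝ) × (ℕ → Bool × ℝ)

theorem exists_random : ∃ (m : Measure Par) (Φ : Par → X ≃ₜ X), IsProbabilityMeasure m ∧
    Continuous (fun p : Par × X => Φ p.1 p.2) ∧
    ∀ η : ℝ, 0 < η → ∃ ν : Measure X, IsFiniteMeasure ν ∧
      ∀ (x : X) (B : Set X), MeasurableSet B → m {θ | Φ θ x ∈ B} ≤ ENNReal.ofReal η + ν B := by
  obtain ⟨C, ε, a, hε, h1, h2⟩ := exists_tolerance
  obtain ⟨T, hT⟩ := exists_first_stage ε hε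
  have hcont : Continuous (fun p : Par × X => actX p.1.2 (C (actX p.1.1 p.2))) := by
    have c1 : Continuous (fun p : Par × X => actX p.1.1 p.2) :=
      continuous_actX.comp (f := fun p : Par × X => (p.1.1, p.2)) (by fun_prop)
    exact continuous_actX.comp (f := fun p : Par × X => (p.1.2, C (actX p.1.1 p.2)))
      (Continuous.prodMk (by fun_prop) (C.continuous.comp c1))
  refine ⟨(law T).prod (law fun _ => 1),
    fun θ => ((actX θ.1).trans C).trans (actX θ.2), inferInstance, hcont, fun η hη => ?_⟩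
  obtain ⟨K, hK⟩ := exists_pow_lt_of_lt_one (show 0 < η / 20 by positivity)
    (show (1 / 2 : ℝ) < 1 by norm_num)
  obtain ⟨t, ht, hnet⟩ := exists_net C ε a K (h1 K) (h2 K)
  let ν : Measure X := ∑ v ∈ t, (law fun _ => 1).map fun θ => actX θ (C v)
  refine ⟨ν, inferInstance, fun x B hB => ?_⟩
  have hm : MeasurableSet {θ : Par | actX θ.2 (C (actX θ.1 x)) ∈ B} :=
    (hcont.comp (f := fun θ : Par => (θ, x)) (by fun_prop)).measurable hB
  change ((law T).prod (law fun _ => 1)) {θ : Par | actX θ.2 (C (actX θ.1 x)) ∈ B} ≤ _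
  rw [Measure.prod_apply hm]
  have hbad : MeasurableSet {θ | actX θ x ∉ W ε K} :=
    measurable_actX_apply x (isClosed_W ε K).measurableSet.compl
  have hb : ∀ θ₁, (law fun _ => 1) (Prod.mk θ₁ ⁻¹' {θ : Par | actX θ.2 (C (actX θ.1 x)) ∈ B}) ≤
      {θ | actX θ x ∉ W ε K}.indicator 1 θ₁ + (ENNReal.ofReal (8 * (2 * (1 / 2) ^ K)) + ν B) := by
    intro θ₁
    by_cases hw : actX θ₁ x ∈ W ε K
    · obtain ⟨v, hv, hd⟩ := hnet _ hw
      have := second_stage (C (actX θ₁ x)) (C v) (h1 K _ hw) (h1 K _ (ht v hv))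
        (β := 2 * (1 / 2) ^ K) (by positivity) hd hB
      refine this.trans (le_trans ?_ le_add_self)
      refine add_le_add le_rfl ?_
      simp only [ν, Measure.coe_finsetSum, Finset.sum_apply]
      refine le_trans (le_of_eq ?_) (Finset.single_le_sum
        (f := fun v => ((law fun _ => 1).map fun θ => actX θ (C v)) B) (fun _ _ => zero_le) hv)
      rw [Measure.map_apply (measurable_actX_apply _) hB]
      rfl
    · rw [indicator_of_mem (show θ₁ ∈ {θ | actX θ x ∉ W ε K} from hw)]
      exact prob_le_one.trans le_self_add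
  refine (lintegral_mono hb).trans ?_
  rw [lintegral_add_right _ measurable_const, lintegral_indicator_one hbad, lintegral_const,
    measure_univ, mul_one, ← add_assoc]
  refine add_le_add ?_ le_rfl
  refine (add_le_add (hT x K) le_rfl).trans ?_
  rw [← ENNReal.ofReal_add (by positivity) (by positivity)]
  exact ENNReal.ofReal_le_ofReal (by linarith)

end Pool.Agent.MP_08a145_lc

end MrgPart3

-- marker of a merged file
example : 731051 + 259721 = 731051 + 259721 := rfl
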